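import Pool.Agent.H852R2.DM.Defs

/-! EVINV, TWOINV, CHUNK: involutions -/

namespace DM852
open RC14 RC852 Finset Equiv

namespace INVOL

/-- splitting off a transposition of an involution -/
theorem strip1 {n : ℕ} (θ : Perm (Fin n)) (h2 : θ * θ = 1) (h1 : θ ≠ 1) :
    ∃ (a b : Fin n) (θ' : Perm (Fin n)), a ≠ b ∧ θ' a = a ∧ θ' b = b ∧ θ = swap a b * θ' ∧
      θ' * θ' = 1 ∧ θ'.support.card + 2 = θ.support.card ∧ θ'.support ⊆ θ.support ∧
      a ∈ θ.support ∧ b ∈ θ.support := by
  obtain ⟨a, ha⟩ : ∃ a, θ a ≠ a := by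
    by_contra hne
    push Not at hne
    exact h1 (Perm.ext hne)
  have h3 : ∀ x, θ (θ x) = x := fun x => by
    rw [← Perm.mul_apply, h2, Perm.one_apply]
  obtain ⟨b, hb⟩ : ∃ b, b = θ a := ⟨_, rfl⟩
  have hba : θ b = a := by rw [hb]; exact h3 a
  have hab : a ≠ b := fun h => ha (by rw [← hb]; exact h.symm)
  obtain ⟨θ', hθ'⟩ : ∃ θ' : Perm (Fin n), θ' = swap a b * θ := ⟨_, rfl⟩
  have e1 : θ' a = a := by rw [hθ', Perm.mul_apply, ← hb, swap_apply_right]
  have e2 : θ' b = b := by rw [hθ', Perm.mul_apply, hba, swap_apply_left]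
  have e3 : ∀ x, x ≠ a → x ≠ b → θ' x = θ x := by
    intro x hxa hxb
    rw [hθ', Perm.mul_apply]
    apply swap_apply_of_ne_of_ne
    · intro h
      apply hxb
      rw [← h3 x, h, hb]
    · intro h
      apply hxa
      rw [← h3 x, h, hba]
  have e4 : ∀ x, x ≠ a → x ≠ b → θ x ≠ a ∧ θ x ≠ b := by
    intro x hxa hxb
    constructor
    · intro h
      apply hxb
      rw [← h3 x, h, hb]
    · intro h
      apply hxa
      rw [← h3 x, h, hba]
  have hsub : θ'.support ⊆ θ.support := by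
    intro x hx
    rw [Perm.mem_support] at hx ⊢
    have hxa : x ≠ a := fun h => hx (by rw [h, e1])
    have hxb : x ≠ b := fun h => hx (by rw [h, e2])
    rwa [e3 x hxa hxb] at hx
  refine ⟨a, b, θ', hab, e1, e2, ?_, ?_, ?_, hsub, ?_, ?_⟩
  · rw [hθ', ← mul_assoc, swap_mul_self, one_mul]
  · ext x
    rw [Perm.mul_apply, Perm.one_apply]
    by_cases hxa : x = a
    · rw [hxa, e1, e1]
    by_cases hxb : x = b
    · rw [hxb, e2, e2]
    rw [e3 x hxa hxb, e3 _ (e4 x hxa hxb).1 (e4 x hxa hxb).2, h3]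
  · have h5 : θ.support = insert a (insert b θ'.support) := by
      ext x
      rw [mem_insert, mem_insert, Perm.mem_support, Perm.mem_support]
      by_cases hxa : x = a
      · simp [hxa, ha]
      by_cases hxb : x = b
      · have : θ b ≠ b := by rw [hba]; exact hab
        simp [hxb, this]
      rw [e3 x hxa hxb]
      simp [hxa, hxb]
    rw [h5, card_insert_of_notMem, card_insert_of_notMem]
    · rw [Perm.mem_support, not_not]
      exact e2
    · rw [mem_insert, Perm.mem_support, not_or, not_not]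
      exact ⟨hab, e1⟩
  · rw [Perm.mem_support]
    exact ha
  · rw [Perm.mem_support, hba]
    exact hab

/-- splitting off two transpositions of an even involution -/
theorem strip2 {n : ℕ} (θ : Perm (Fin n)) (h2 : θ * θ = 1) (hs : Perm.sign θ = 1) (h1 : θ ≠ 1) :
    ∃ (a b c d : Fin n) (θ' : Perm (Fin n)), a ≠ b ∧ a ≠ c ∧ a ≠ d ∧ b ≠ c ∧ b ≠ d ∧ c ≠ d ∧
      θ' a = a ∧ θ' b = b ∧ θ' c = c ∧ θ' d = d ∧ θ = swap a b * swap c d * θ' ∧
      θ' * θ' = 1 ∧ Perm.sign θ' = 1 ∧ θ'.support.card + 4 = θ.support.card ∧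
      θ'.support ⊆ θ.support ∧ a ∈ θ.support ∧ b ∈ θ.support ∧ c ∈ θ.support ∧
      d ∈ θ.support := by
  obtain ⟨a, b, θ1, hab, f1, f2, f3, f4, f5, f6, f7, f8⟩ := strip1 θ h2 h1
  have hs1 : Perm.sign θ1 = -1 := by
    rw [f3, Perm.sign_mul, Perm.sign_swap hab] at hs
    rcases Int.units_eq_one_or (Perm.sign θ1) with h | h
    · rw [h] at hs
      exact absurd hs (by decide)
    · exact h
  have hne : θ1 ≠ 1 := by
    intro h
    rw [h, Perm.sign_one] at hs1
    exact absurd hs1 (by decide)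
  obtain ⟨c, d, θ', hcd, g1, g2, g3, g4, g5, g6, g7, g8⟩ := strip1 θ1 f4 hne
  have hac : a ≠ c := by
    intro h
    rw [Perm.mem_support, ← h] at g7
    exact g7 f1
  have had : a ≠ d := by
    intro h
    rw [Perm.mem_support, ← h] at g8
    exact g8 f1
  have hbc : b ≠ c := by
    intro h
    rw [Perm.mem_support, ← h] at g7
    exact g7 f2
  have hbd : b ≠ d := by
    intro h
    rw [Perm.mem_support, ← h] at g8
    exact g8 f2
  have ka : θ' a = a := by
    by_contra h
    have := g6 (Perm.mem_support.2 h)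
    rw [Perm.mem_support] at this
    exact this f1
  have kb : θ' b = b := by
    by_contra h
    have := g6 (Perm.mem_support.2 h)
    rw [Perm.mem_support] at this
    exact this f2
  refine ⟨a, b, c, d, θ', hab, hac, had, hbc, hbd, hcd, ka, kb, g1, g2, ?_, g4, ?_, by omega,
    g6.trans f6, f7, f8, f6 g7, f6 g8⟩
  · rw [f3, g3, mul_assoc]
  · rw [g3, Perm.sign_mul, Perm.sign_swap hcd] at hs1
    rcases Int.units_eq_one_or (Perm.sign θ') with h | h
    · exact h
    · rw [h] at hs1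
      exact absurd hs1 (by decide)

theorem comm_of {n : ℕ} (σ τ : Perm (Fin n)) (S : Finset (Fin n)) (h1 : σ.support ⊆ S)
    (h2 : ∀ x ∈ S, τ x = x) : Commute σ τ := by
  apply Perm.Disjoint.commute
  intro x
  by_cases hx : x ∈ S
  · exact Or.inr (h2 x hx)
  · left
    by_contra h
    exact hx (h1 (Perm.mem_support.2 h))

theorem supp_swap {n : ℕ} (a b : Fin n) (S : Finset (Fin n)) (ha : a ∈ S) (hb : b ∈ S) :
    (swap a b).support ⊆ S := by
  intro x hx
  rw [Perm.mem_support] at hx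
  by_contra h
  exact hx (swap_apply_of_ne_of_ne (fun e => h (e ▸ ha)) (fun e => h (e ▸ hb)))

theorem supp_mul {n : ℕ} (σ τ : Perm (Fin n)) (S : Finset (Fin n)) (h1 : σ.support ⊆ S)
    (h2 : τ.support ⊆ S) : (σ * τ).support ⊆ S :=
  (Perm.support_mul_le σ τ).trans (Finset.union_subset h1 h2)

theorem grp {G : Type*} [Group G] (u w r s : G) (h1 : Commute u r) (h2 : Commute u s)
    (h3 : Commute w r) (h4 : Commute w s) :
    (u * r)⁻¹ * (w * s) * (u * r) * (w * s)⁻¹ = (u⁻¹ * w * u * w⁻¹) * (r⁻¹ * s * r * s⁻¹) := by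
  have c1 : w * r⁻¹ = r⁻¹ * w := (h3.inv_right).eq
  have c2 : u * (r⁻¹ * s) = (r⁻¹ * s) * u := ((h1.inv_right).mul_right h2).eq
  have c3 : w⁻¹ * (r⁻¹ * s * r) = (r⁻¹ * s * r) * w⁻¹ :=
    (((h3.inv_right).mul_right h4).mul_right h3).inv_left.eq
  have c4 : u⁻¹ * r⁻¹ = r⁻¹ * u⁻¹ := (h1.inv_left.inv_right).eq
  have c5 : w⁻¹ * s⁻¹ = s⁻¹ * w⁻¹ := (h4.inv_left.inv_right).eq
  calc (u * r)⁻¹ * (w * s) * (u * r) * (w * s)⁻¹
      = (r⁻¹ * u⁻¹) * w * s * u * r * (s⁻¹ * w⁻¹) := by simp only [mul_inv_rev, mul_assoc]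
    _ = (u⁻¹ * r⁻¹) * w * s * u * r * (w⁻¹ * s⁻¹) := by rw [c4, c5]
    _ = u⁻¹ * (r⁻¹ * w) * s * u * r * w⁻¹ * s⁻¹ := by simp only [mul_assoc]
    _ = u⁻¹ * (w * r⁻¹) * s * u * r * w⁻¹ * s⁻¹ := by rw [c1]
    _ = u⁻¹ * w * ((r⁻¹ * s) * u) * r * w⁻¹ * s⁻¹ := by simp only [mul_assoc]
    _ = u⁻¹ * w * (u * (r⁻¹ * s)) * r * w⁻¹ * s⁻¹ := by rw [c2]
    _ = u⁻¹ * w * u * ((r⁻¹ * s * r) * w⁻¹) * s⁻¹ := by simp only [mul_assoc]
    _ = u⁻¹ * w * u * (w⁻¹ * (r⁻¹ * s * r)) * s⁻¹ := by rw [c3]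
    _ = _ := by simp only [mul_assoc]

theorem four {n : ℕ} (a b c d : Fin n) (hab : a ≠ b) (hac : a ≠ c) (had : a ≠ d) (hbc : b ≠ c)
    (hbd : b ≠ d) (hcd : c ≠ d) :
    (swap a b)⁻¹ * (swap a c * swap b d) * swap a b * (swap a c * swap b d)⁻¹ =
      swap a b * swap c d := by
  have h1 : (swap a c * swap b d) * swap a b * (swap a c * swap b d)⁻¹ = swap c d := by
    rw [Equiv.mul_swap_eq_swap_mul, mul_assoc, mul_inv_cancel, mul_one]
    congr 1
    · rw [Perm.mul_apply, swap_apply_of_ne_of_ne hab had, swap_apply_left]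
    · rw [Perm.mul_apply, swap_apply_left, swap_apply_of_ne_of_ne had.symm hcd.symm]
  calc (swap a b)⁻¹ * (swap a c * swap b d) * swap a b * (swap a c * swap b d)⁻¹
      = (swap a b)⁻¹ * ((swap a c * swap b d) * swap a b * (swap a c * swap b d)⁻¹) := by
        simp only [mul_assoc]
    _ = _ := by rw [h1, swap_inv]

theorem evinv_aux (N : ℕ) : ∀ {n : ℕ} (θ : Perm (Fin n)), θ * θ = 1 → Perm.sign θ = 1 →
    θ.support.card ≤ N →
    ∃ ρ ρ' : Perm (Fin n), ρ.support ⊆ θ.support ∧ ρ'.support ⊆ θ.support ∧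
      θ = ρ⁻¹ * ρ' * ρ * ρ'⁻¹ := by
  induction N with
  | zero =>
    intro n θ h2 hs hN
    have : θ = 1 := by
      rw [← Perm.support_eq_empty_iff, ← Finset.card_eq_zero]
      omega
    refine ⟨1, 1, by simp, by simp, ?_⟩
    rw [this]
    simp
  | succ N ih =>
    intro n θ h2 hs hN
    by_cases h1 : θ = 1
    · refine ⟨1, 1, by simp, by simp, ?_⟩
      rw [h1]
      simp
    obtain ⟨a, b, c, d, θ', hab, hac, had, hbc, hbd, hcd, ka, kb, kc, kd, e1, e2, e3, e4, e5, e6,
      e7, e8, e9⟩ := strip2 θ h2 hs h1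
    obtain ⟨r, s, hr, hs', hrs⟩ := ih θ' e2 e3 (by omega)
    have hfix : ∀ τ : Perm (Fin n), τ.support ⊆ θ'.support → ∀ x ∈ ({a, b, c, d} : Finset (Fin n)),
        τ x = x := by
      intro τ hτ x hx
      by_contra h
      have h3 := hτ (Perm.mem_support.2 h)
      rw [Perm.mem_support] at h3
      rw [mem_insert, mem_insert, mem_insert, mem_singleton] at hx
      rcases hx with rfl | rfl | rfl | rfl
      · exact h3 ka
      · exact h3 kb
      · exact h3 kc
      · exact h3 kd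
    have hu : (swap a b).support ⊆ ({a, b, c, d} : Finset (Fin n)) :=
      supp_swap _ _ _ (by simp) (by simp)
    have hw : (swap a c * swap b d).support ⊆ ({a, b, c, d} : Finset (Fin n)) :=
      supp_mul _ _ _ (supp_swap _ _ _ (by simp) (by simp)) (supp_swap _ _ _ (by simp) (by simp))
    have hsub : ({a, b, c, d} : Finset (Fin n)) ⊆ θ.support := by
      intro x hx
      rw [mem_insert, mem_insert, mem_insert, mem_singleton] at hx
      rcases hx with rfl | rfl | rfl | rfl
      · exact e6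
      · exact e7
      · exact e8
      · exact e9
    refine ⟨swap a b * r, (swap a c * swap b d) * s,
      supp_mul _ _ _ (hu.trans hsub) (hr.trans e5),
      supp_mul _ _ _ (hw.trans hsub) (hs'.trans e5), ?_⟩
    rw [grp _ _ _ _ (comm_of _ _ _ hu (hfix r hr)) (comm_of _ _ _ hu (hfix s hs'))
      (comm_of _ _ _ hw (hfix r hr)) (comm_of _ _ _ hw (hfix s hs')), four a b c d hab hac had
      hbc hbd hcd, ← hrs, e1]

end INVOL

/-- an even involution supported in `A` is a commutator of elements supported in `A` -/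
theorem EVINV {n : ℕ} (θ : Perm (Fin n)) (h2 : θ * θ = 1) (hs : Perm.sign θ = 1) :
    ∃ ρ ρ' : Perm (Fin n), ρ.support ⊆ θ.support ∧ ρ'.support ⊆ θ.support ∧
      θ = ρ⁻¹ * ρ' * ρ * ρ'⁻¹ :=
  INVOL.evinv_aux _ θ h2 hs le_rfl

/-- every permutation is a product of two involutions -/
theorem TWOINV {n : ℕ} (g : Perm (Fin n)) : ∃ i j : Perm (Fin n), i * i = 1 ∧ j * j = 1 ∧
    g = i * j := by
  classical
  obtain ⟨r, hr1, hr2⟩ : ∃ r : Fin n → Fin n, (∀ x, ∃ i : ℤ, (g ^ i) (r x) = x) ∧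
      ∀ x (k : ℤ), r ((g ^ k) x) = r x := by
    refine ⟨fun x => (Quotient.mk (Perm.SameCycle.setoid g) x).out, ?_, ?_⟩
    · intro x
      exact Quotient.mk_out (s := Perm.SameCycle.setoid g) x
    · intro x k
      have : Quotient.mk (Perm.SameCycle.setoid g) ((g ^ k) x) =
          Quotient.mk (Perm.SameCycle.setoid g) x :=
        Quotient.sound ⟨-k, by rw [← Perm.mul_apply, ← zpow_add, neg_add_cancel, zpow_zero,
          Perm.one_apply]⟩
      simp only [this]
  choose i hi using hr1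
  have hrr : ∀ x, r (r x) = r x := by
    intro x
    have := hr2 (r x) (i x)
    rw [hi x] at this
    exact this.symm
  have key : ∀ x (k : ℤ), (g ^ (-(i ((g ^ k) (r x))))) (r ((g ^ k) (r x))) =
      (g ^ (-k)) (r x) := by
    intro x k
    have h1 : r ((g ^ k) (r x)) = r x := by rw [hr2, hrr]
    have h2 := hi ((g ^ k) (r x))
    rw [h1] at h2
    rw [h1]
    have h3 : (g ^ (i ((g ^ k) (r x)) - k)) (r x) = r x := by
      rw [sub_eq_neg_add, zpow_add, Perm.mul_apply, h2, ← Perm.mul_apply, ← zpow_add,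
        neg_add_cancel, zpow_zero, Perm.one_apply]
    calc (g ^ (-(i ((g ^ k) (r x))))) (r x)
        = (g ^ (-(i ((g ^ k) (r x))))) ((g ^ (i ((g ^ k) (r x)) - k)) (r x)) := by rw [h3]
      _ = (g ^ (-k)) (r x) := by
          rw [← Perm.mul_apply, ← zpow_add]
          congr 2
          ring
  obtain ⟨j, hj⟩ : ∃ j : Fin n → Fin n, ∀ x, j x = (g ^ (-(i x))) (r x) := ⟨_, fun _ => rfl⟩
  have hj2 : ∀ x (k : ℤ), j ((g ^ k) (r x)) = (g ^ (-k)) (r x) := by
    intro x k
    rw [hj]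
    exact key x k
  have hjj : ∀ x, j (j x) = x := by
    intro x
    rw [hj x, hj2 x, neg_neg, hi]
  obtain ⟨J, hJ⟩ : ∃ J : Perm (Fin n), ∀ x, J x = j x := ⟨⟨j, j, hjj, hjj⟩, fun _ => rfl⟩
  have hJJ : J * J = 1 := by
    ext x
    rw [Perm.mul_apply, hJ, hJ, hjj, Perm.one_apply]
  have hgz : ∀ (k : ℤ) (y : Fin n), g ((g ^ k) y) = (g ^ (k + 1)) y := by
    intro k y
    rw [zpow_add_one, ← Perm.mul_apply, ← zpow_one_add, add_comm 1 k, zpow_add_one]
  refine ⟨g * J, J, ?_, hJJ, ?_⟩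
  · ext x
    rw [Perm.one_apply, Perm.mul_apply, Perm.mul_apply, Perm.mul_apply, hJ, hJ, hj x, hgz, hj2,
      hgz]
    have : -(-i x + 1) + 1 = i x := by ring
    rw [this, hi]
  · rw [mul_assoc, hJJ, mul_one]

namespace INVOL

/-- splitting off an even involution with support of size `≤ 4 d` -/
theorem split {n : ℕ} (d : ℕ) : ∀ (θ : Perm (Fin n)), θ * θ = 1 → Perm.sign θ = 1 →
    4 * d ≤ θ.support.card → ∃ τ θ' : Perm (Fin n), θ = τ * θ' ∧ τ * τ = 1 ∧
      Perm.sign τ = 1 ∧ τ.support.card ≤ 4 * d ∧ τ.support ⊆ θ.support ∧ θ' * θ' = 1 ∧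
      Perm.sign θ' = 1 ∧ θ'.support.card + 4 * d = θ.support.card := by
  induction d with
  | zero =>
    intro θ h2 hs _
    exact ⟨1, θ, by simp, by simp, by simp, by simp, by simp, h2, hs, by simp⟩
  | succ d ih =>
    intro θ h2 hs hd
    have h1 : θ ≠ 1 := by
      intro h
      rw [h, Perm.support_one, Finset.card_empty] at hd
      omega
    obtain ⟨a, b, c, e, θ1, hab, hac, had, hbc, hbd, hcd, ka, kb, kc, kd, e1, e2, e3, e4, e5, e6,
      e7, e8, e9⟩ := strip2 θ h2 hs h1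
    obtain ⟨τ, θ', f1, f2, f3, f4, f5, f6, f7, f8⟩ := ih θ1 e2 e3 (by omega)
    have hu : (swap a b * swap c e).support ⊆ ({a, b, c, e} : Finset (Fin n)) :=
      supp_mul _ _ _ (supp_swap _ _ _ (by simp) (by simp)) (supp_swap _ _ _ (by simp) (by simp))
    have hfix : ∀ x ∈ ({a, b, c, e} : Finset (Fin n)), τ x = x := by
      intro x hx
      by_contra h
      have h3 := f5 (Perm.mem_support.2 h)
      rw [Perm.mem_support] at h3
      rw [mem_insert, mem_insert, mem_insert, mem_singleton] at hx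
      rcases hx with rfl | rfl | rfl | rfl
      · exact h3 ka
      · exact h3 kb
      · exact h3 kc
      · exact h3 kd
    have hsub : ({a, b, c, e} : Finset (Fin n)) ⊆ θ.support := by
      intro x hx
      rw [mem_insert, mem_insert, mem_insert, mem_singleton] at hx
      rcases hx with rfl | rfl | rfl | rfl
      · exact e6
      · exact e7
      · exact e8
      · exact e9
    have hc := comm_of _ _ _ hu hfix
    have hcc : Commute (swap a b) (swap c e) :=
      comm_of _ _ ({a, b} : Finset (Fin n)) (supp_swap _ _ _ (by simp) (by simp)) (by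
        intro x hx
        rw [mem_insert, mem_singleton] at hx
        rcases hx with rfl | rfl
        · exact swap_apply_of_ne_of_ne hac had
        · exact swap_apply_of_ne_of_ne hbc hbd)
    have huu : (swap a b * swap c e) * (swap a b * swap c e) = 1 := by
      have h3 := hcc.eq
      calc (swap a b * swap c e) * (swap a b * swap c e)
          = (swap a b * swap c e) * (swap c e * swap a b) := by rw [← h3]
        _ = swap a b * (swap c e * swap c e) * swap a b := by simp only [mul_assoc]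
        _ = 1 := by rw [swap_mul_self, mul_one, swap_mul_self]
    refine ⟨(swap a b * swap c e) * τ, θ', ?_, ?_, ?_, ?_, ?_, f6, f7, by omega⟩
    · rw [e1, f1, mul_assoc (swap a b * swap c e)]
    · calc (swap a b * swap c e) * τ * ((swap a b * swap c e) * τ)
          = (swap a b * swap c e) * (τ * (swap a b * swap c e)) * τ := by simp only [mul_assoc]
        _ = (swap a b * swap c e) * ((swap a b * swap c e) * τ) * τ := by rw [← hc.eq]
        _ = ((swap a b * swap c e) * (swap a b * swap c e)) * (τ * τ) := by simp only [mul_assoc]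
        _ = 1 := by rw [huu, f2, mul_one]
    · rw [Perm.sign_mul, Perm.sign_mul, Perm.sign_swap hab, Perm.sign_swap hcd, f3]
      decide
    · have h4 : ((swap a b * swap c e) * τ).support.card ≤
          (({a, b, c, e} : Finset (Fin n)) ∪ τ.support).card :=
        Finset.card_le_card ((Perm.support_mul_le _ _).trans
          (Finset.union_subset_union hu (Finset.Subset.refl _)))
      have h5 := Finset.card_union_le ({a, b, c, e} : Finset (Fin n)) τ.support
      have h6 : ({a, b, c, e} : Finset (Fin n)).card ≤ 4 := Finset.card_le_four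
      omega
    · exact supp_mul _ _ _ (hu.trans hsub) (f5.trans e5)

theorem chunk_aux (N : ℕ) : ∀ {n : ℕ} (θ : Perm (Fin n)), θ * θ = 1 → Perm.sign θ = 1 →
    θ.support.card ≤ N → ∀ d : ℕ, 1 ≤ d →
    ∃ l : List (Perm (Fin n)), l.length * (4 * d) ≤ θ.support.card + 4 * d ∧ l.prod = θ ∧
      ∀ τ ∈ l, τ * τ = 1 ∧ Perm.sign τ = 1 ∧ τ.support.card ≤ 4 * d := by
  induction N with
  | zero =>
    intro n θ h2 hs hN d hd
    refine ⟨[θ], by simp, by simp, ?_⟩
    intro τ hτ
    rw [List.mem_singleton] at hτ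
    rw [hτ]
    exact ⟨h2, hs, by omega⟩
  | succ N ih =>
    intro n θ h2 hs hN d hd
    by_cases hc : θ.support.card ≤ 4 * d
    · refine ⟨[θ], by simp, by simp, ?_⟩
      intro τ hτ
      rw [List.mem_singleton] at hτ
      rw [hτ]
      exact ⟨h2, hs, hc⟩
    · obtain ⟨τ, θ', f1, f2, f3, f4, f5, f6, f7, f8⟩ := split d θ h2 hs (by omega)
      obtain ⟨l, g1, g2, g3⟩ := ih θ' f6 f7 (by omega) d hd
      refine ⟨τ :: l, ?_, ?_, ?_⟩
      · rw [List.length_cons, add_mul, one_mul]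
        omega
      · rw [List.prod_cons, g2, f1]
      · intro σ hσ
        rcases List.mem_cons.1 hσ with rfl | h
        · exact ⟨f2, f3, f4⟩
        · exact g3 σ h

end INVOL

/-- an even involution is a product of few even involutions with small support -/
theorem CHUNK {n : ℕ} (θ : Perm (Fin n)) (h2 : θ * θ = 1) (hs : Perm.sign θ = 1) (d : ℕ)
    (hd : 1 ≤ d) : ∃ l : List (Perm (Fin n)), l.length * (4 * d) ≤ n + 4 * d ∧ l.prod = θ ∧
      ∀ τ ∈ l, τ * τ = 1 ∧ Perm.sign τ = 1 ∧ τ.support.card ≤ 4 * d := by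
  obtain ⟨l, h3, h4, h5⟩ := INVOL.chunk_aux _ θ h2 hs le_rfl d hd
  refine ⟨l, h3.trans ?_, h4, h5⟩
  have : θ.support.card ≤ n := by
    calc θ.support.card ≤ Fintype.card (Fin n) := Finset.card_le_univ _
      _ = n := Fintype.card_fin n
  omega

end DM852
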