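import Pool.Agent.H605R2.DM.FOUR
import Pool.Agent.H930R2.DM.INVOL

/-! GEN: every even permutation is a product of few conjugates -/

namespace DM852
open RC14 RC852 Finset Equiv

namespace GEN

/-- the set `CC σ` is invariant under conjugation -/
theorem cc_conj {n : ℕ} (σ γ τ : Perm (Fin n)) (h : τ ∈ CC σ) : γ * τ * γ⁻¹ ∈ CC σ := by
  obtain ⟨δ, h | h⟩ := h
  · refine ⟨γ * δ, Or.inl ?_⟩
    rw [h, mul_inv_rev]
    simp only [mul_assoc]
  · refine ⟨γ * δ, Or.inr ?_⟩
    rw [h, mul_inv_rev]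
    simp only [mul_assoc]

/-- a permutation moving one set into another one -/
theorem exists_move {n : ℕ} (S A : Finset (Fin n)) (h : S.card ≤ A.card) :
    ∃ γ : Perm (Fin n), ∀ x ∈ S, γ x ∈ A := by
  classical
  obtain ⟨B, hB, hBc⟩ := Finset.exists_subset_card_eq h
  obtain ⟨e⟩ : Nonempty ({x // x ∈ S} ≃ {x // x ∈ B}) := by
    rw [← Fintype.card_eq, Fintype.card_coe, Fintype.card_coe, hBc]
  refine ⟨e.extendSubtype, fun x hx => hB ?_⟩
  exact e.extendSubtype_mem x hx

/-- one even involution with small support -/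
theorem one {n : ℕ} (σ : Perm (Fin n)) (A : Finset (Fin n)) (hA : ∀ x ∈ A, σ x ∉ A)
    (τ : Perm (Fin n)) (h2 : τ * τ = 1) (hs : Perm.sign τ = 1) (hc : τ.support.card ≤ A.card) :
    ∃ l : List (Perm (Fin n)), l.length = 4 ∧ (∀ τ ∈ l, τ ∈ CC σ) ∧ l.prod = τ := by
  obtain ⟨γ, hγ⟩ := exists_move τ.support A hc
  have k1 : (γ * τ * γ⁻¹) * (γ * τ * γ⁻¹) = 1 := by
    calc (γ * τ * γ⁻¹) * (γ * τ * γ⁻¹) = γ * (τ * τ) * γ⁻¹ := by group
      _ = 1 := by rw [h2]; group
  have k2 : Perm.sign (γ * τ * γ⁻¹) = 1 := by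
    rw [Perm.sign_mul, Perm.sign_mul, hs, mul_one, Perm.sign_inv]
    exact Int.units_mul_self _
  have k3 : (γ * τ * γ⁻¹).support ⊆ A := by
    rw [Perm.support_conj]
    intro x hx
    rw [Finset.mem_map] at hx
    obtain ⟨y, hy, rfl⟩ := hx
    exact hγ y hy
  obtain ⟨ρ, ρ', r1, r2, r3⟩ := EVINV _ k1 k2
  obtain ⟨l, l1, l2, l3⟩ := FOUR σ A hA ρ ρ' (r1.trans k3) (r2.trans k3)
  refine ⟨l.map (fun x => γ⁻¹ * x * γ⁻¹⁻¹), by rw [List.length_map, l1], ?_, ?_⟩
  · intro x hx
    rw [List.mem_map] at hx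
    obtain ⟨y, hy, rfl⟩ := hx
    exact cc_conj σ _ y (l2 y hy)
  · have h5 : l.map (fun x => γ⁻¹ * x * γ⁻¹⁻¹) = l.map (MulAut.conj γ⁻¹) := rfl
    rw [h5, ← map_list_prod, l3, ← r3, MulAut.conj_apply]
    group

/-- products of several involutions -/
theorem many {n : ℕ} (σ : Perm (Fin n)) (A : Finset (Fin n)) (hA : ∀ x ∈ A, σ x ∉ A)
    (L : List (Perm (Fin n))) (hL : ∀ τ ∈ L, τ * τ = 1 ∧ Perm.sign τ = 1 ∧
      τ.support.card ≤ A.card) :
    ∃ l : List (Perm (Fin n)), l.length = 4 * L.length ∧ (∀ τ ∈ l, τ ∈ CC σ) ∧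
      l.prod = L.prod := by
  induction L with
  | nil => exact ⟨[], by simp, by simp, by simp⟩
  | cons τ L ih =>
    obtain ⟨l, l1, l2, l3⟩ := ih (fun x hx => hL x (List.mem_cons_of_mem _ hx))
    obtain ⟨h1, h2, h3⟩ := hL τ List.mem_cons_self
    obtain ⟨m, m1, m2, m3⟩ := one σ A hA τ h1 h2 h3
    refine ⟨m ++ l, ?_, ?_, ?_⟩
    · rw [List.length_append, List.length_cons, m1, l1]
      ring
    · intro x hx
      rcases List.mem_append.1 hx with h | h
      · exact m2 x h
      · exact l2 x h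
    · rw [List.prod_append, List.prod_cons, m3, l3]

/-- the product of two even involutions -/
theorem pair {n : ℕ} (σ : Perm (Fin n)) (A : Finset (Fin n)) (hA : ∀ x ∈ A, σ x ∉ A) (d : ℕ)
    (hd : 1 ≤ d) (hdA : 4 * d ≤ A.card) (i : Perm (Fin n))
    (hi : i * i = 1) (hs : Perm.sign i = 1) :
    ∃ l : List (Perm (Fin n)), l.length * d ≤ n + 4 * d ∧ (∀ τ ∈ l, τ ∈ CC σ) ∧
      l.prod = i := by
  obtain ⟨L, h1, h2, h3⟩ := CHUNK i hi hs d hd
  obtain ⟨l, l1, l2, l3⟩ := many σ A hA L
    (fun τ hτ => ⟨(h3 τ hτ).1, (h3 τ hτ).2.1, (h3 τ hτ).2.2.trans hdA⟩)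
  refine ⟨l, ?_, l2, by rw [l3, h2]⟩
  rw [l1]
  calc 4 * L.length * d = L.length * (4 * d) := by ring
    _ ≤ _ := h1

/-- a transposition disjoint from four given points -/
theorem exists_two {n : ℕ} (S : Finset (Fin n)) (hS : S.card ≤ 4) (hn : 8 ≤ n) :
    ∃ e f : Fin n, e ≠ f ∧ e ∉ S ∧ f ∉ S := by
  classical
  have h1 : 1 < (Finset.univ \ S).card := by
    rw [Finset.card_sdiff_of_subset (Finset.subset_univ _), Finset.card_univ, Fintype.card_fin]
    omega
  obtain ⟨e, he, f, hf, hef⟩ := Finset.one_lt_card.1 h1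
  exact ⟨e, f, hef, (Finset.mem_sdiff.1 he).2, (Finset.mem_sdiff.1 hf).2⟩

/-- the product of two disjoint transpositions -/
theorem dbl {n : ℕ} (a b e f : Fin n) (hab : a ≠ b) (hef : e ≠ f) (h1 : a ≠ e) (h2 : a ≠ f)
    (h3 : b ≠ e) (h4 : b ≠ f) : (swap a b * swap e f) * (swap a b * swap e f) = 1 ∧
    Perm.sign (swap a b * swap e f) = 1 ∧ (swap a b * swap e f).support.card ≤ 4 ∧
    swap a b * swap e f = swap e f * swap a b := by
  have hcc : Commute (swap a b) (swap e f) :=
    INVOL.comm_of _ _ ({a, b} : Finset (Fin n)) (INVOL.supp_swap _ _ _ (by simp) (by simp)) (by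
      intro x hx
      rw [mem_insert, mem_singleton] at hx
      rcases hx with rfl | rfl
      · exact swap_apply_of_ne_of_ne h1 h2
      · exact swap_apply_of_ne_of_ne h3 h4)
  refine ⟨?_, ?_, ?_, hcc.eq⟩
  · calc (swap a b * swap e f) * (swap a b * swap e f)
        = (swap a b * swap e f) * (swap e f * swap a b) := by rw [← hcc.eq]
      _ = swap a b * (swap e f * swap e f) * swap a b := by simp only [mul_assoc]
      _ = 1 := by rw [swap_mul_self, mul_one, swap_mul_self]
  · rw [Perm.sign_mul, Perm.sign_swap hab, Perm.sign_swap hef]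
    decide
  · have h5 : (swap a b * swap e f).support ⊆ ({a, b, e, f} : Finset (Fin n)) :=
      INVOL.supp_mul _ _ _ (INVOL.supp_swap _ _ _ (by simp) (by simp))
        (INVOL.supp_swap _ _ _ (by simp) (by simp))
    exact (Finset.card_le_card h5).trans Finset.card_le_four

end GEN

/-- every even permutation is a product of few conjugates of `σ^{±1}` -/
theorem GEN {n : ℕ} (σ : Perm (Fin n)) (A : Finset (Fin n)) (hA : ∀ x ∈ A, σ x ∉ A) (d : ℕ)
    (hd : 1 ≤ d) (hdA : 4 * d ≤ A.card) (g : Perm (Fin n)) (hg : Perm.sign g = 1) :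
    ∃ l : List (Perm (Fin n)), l.length * d ≤ 2 * n + 16 * d ∧ (∀ τ ∈ l, τ ∈ CC σ) ∧
      l.prod = g := by
  classical
  have hn : 8 ≤ n := by
    have h1 : Disjoint A (A.map σ.toEmbedding) := by
      rw [Finset.disjoint_left]
      intro x hx hx2
      rw [Finset.mem_map] at hx2
      obtain ⟨y, hy, rfl⟩ := hx2
      exact hA y hy hx
    have h2 := Finset.card_le_univ (A ∪ A.map σ.toEmbedding)
    rw [Finset.card_union_of_disjoint h1, Finset.card_map, Fintype.card_fin] at h2
    omega
  obtain ⟨i, j, hi, hj, hij⟩ := TWOINV g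
  rcases Int.units_eq_one_or (Perm.sign i) with hsi | hsi
  · have hsj : Perm.sign j = 1 := by
      rw [hij, Perm.sign_mul, hsi, one_mul] at hg
      exact hg
    obtain ⟨l, l1, l2, l3⟩ := GEN.pair σ A hA d hd hdA i hi hsi
    obtain ⟨m, m1, m2, m3⟩ := GEN.pair σ A hA d hd hdA j hj hsj
    refine ⟨l ++ m, ?_, ?_, ?_⟩
    · rw [List.length_append, add_mul]
      omega
    · intro x hx
      rcases List.mem_append.1 hx with h | h
      · exact l2 x h
      · exact m2 x h
    · rw [List.prod_append, l3, m3, hij]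
  · have hsj : Perm.sign j = -1 := by
      rw [hij, Perm.sign_mul, hsi] at hg
      rcases Int.units_eq_one_or (Perm.sign j) with h | h
      · rw [h] at hg
        exact absurd hg (by decide)
      · exact h
    have hi1 : i ≠ 1 := by
      intro h
      rw [h, Perm.sign_one] at hsi
      exact absurd hsi (by decide)
    have hj1 : j ≠ 1 := by
      intro h
      rw [h, Perm.sign_one] at hsj
      exact absurd hsj (by decide)
    obtain ⟨a, b, i', hab, f1, f2, f3, f4, f5, f6, _, _⟩ := INVOL.strip1 i hi hi1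
    obtain ⟨c, e, j', hce, g1, g2, g3, g4, g5, g6, _, _⟩ := INVOL.strip1 j hj hj1
    have hsi' : Perm.sign i' = 1 := by
      rw [f3, Perm.sign_mul, Perm.sign_swap hab] at hsi
      rcases Int.units_eq_one_or (Perm.sign i') with h | h
      · exact h
      · rw [h] at hsi
        exact absurd hsi (by decide)
    have hsj' : Perm.sign j' = 1 := by
      rw [g3, Perm.sign_mul, Perm.sign_swap hce] at hsj
      rcases Int.units_eq_one_or (Perm.sign j') with h | h
      · exact h
      · rw [h] at hsj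
        exact absurd hsj (by decide)
    have hcomm : swap a b * i' = i' * swap a b := by
      have : Commute (swap a b) i' :=
        INVOL.comm_of _ _ ({a, b} : Finset (Fin n))
          (INVOL.supp_swap _ _ _ (by simp) (by simp)) (by
          intro x hx
          rw [mem_insert, mem_singleton] at hx
          rcases hx with rfl | rfl
          · exact f1
          · exact f2)
      exact this.eq
    obtain ⟨u, v, huv, hu, hv⟩ := GEN.exists_two ({a, b, c, e} : Finset (Fin n))
      Finset.card_le_four hn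
    rw [mem_insert, mem_insert, mem_insert, mem_singleton] at hu hv
    push Not at hu hv
    obtain ⟨p1, p2, p3, p4⟩ := GEN.dbl a b u v hab huv hu.1.symm hv.1.symm hu.2.1.symm hv.2.1.symm
    obtain ⟨q1, q2, q3, q4⟩ := GEN.dbl c e u v hce huv hu.2.2.1.symm hv.2.2.1.symm
      hu.2.2.2.symm hv.2.2.2.symm
    obtain ⟨l, l1, l2, l3⟩ := GEN.pair σ A hA d hd hdA i' f4 hsi'
    obtain ⟨m, m1, m2, m3⟩ := GEN.pair σ A hA d hd hdA j' g4 hsj'
    obtain ⟨k, k1, k2, k3⟩ := GEN.many σ A hA [swap a b * swap u v, swap c e * swap u v] (by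
      intro τ hτ
      rw [List.mem_cons, List.mem_singleton] at hτ
      rcases hτ with rfl | rfl
      · exact ⟨p1, p2, by omega⟩
      · exact ⟨q1, q2, by omega⟩)
    refine ⟨l ++ (k ++ m), ?_, ?_, ?_⟩
    · rw [List.length_append, List.length_append, k1, add_mul, add_mul]
      have : 4 * [swap a b * swap u v, swap c e * swap u v].length * d = 8 * d := by
        simp
      rw [this]
      omega
    · intro x hx
      rcases List.mem_append.1 hx with h | h
      · exact l2 x h
      · rcases List.mem_append.1 h with h | h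
        · exact k2 x h
        · exact m2 x h
    · rw [List.prod_append, List.prod_append, l3, m3, k3, List.prod_cons, List.prod_singleton, hij,
        f3, g3]
      calc i' * ((swap a b * swap u v) * (swap c e * swap u v) * j')
          = i' * ((swap a b * swap u v) * (swap u v * swap c e) * j') := by rw [q4]
        _ = i' * swap a b * (swap u v * swap u v) * swap c e * j' := by simp only [mul_assoc]
        _ = (swap a b * i') * swap c e * j' := by rw [swap_mul_self, mul_one, hcomm]
        _ = _ := by simp only [mul_assoc]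

end DM852
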