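import Pool.Agent.H852R2.DM.Defs
import Pool.Agent.H852R2.EX.S.OPS
import Pool.Agent.H14R2.RC.Low

/-! RTD: traces on the irreducible subspaces of `Lvl j n` -/

namespace DM852
open RC14 RC852 Finset Filter Equiv

namespace RTD

/-- the coercion `Alt n → Perm (Fin n)` commutes with `bwd` -/
theorem coe_bwd {n q m J : ℕ} (x b : Fin q → Alt n)
    (w : Fin J → (Fin (2 * m) → Fin q × Bool) × (Fin q × Bool)) :
    ((bwd (wrd x) b w : Alt n) : Equiv.Perm (Fin n)) = bwd (gx x m) (cb b) w := by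
  have h1 : ((bwd (wrd x) b w : Alt n) : Equiv.Perm (Fin n)) =
      (alternatingGroup (Fin n)).subtype (bwd (wrd x) b w) := rfl
  rw [h1]
  unfold bwd
  rw [map_list_prod, List.map_ofFn]
  congr 1
  congr 1
  funext t
  simp only [Function.comp, blk, sl, gx, cb, Subgroup.subtype_apply]
  split_ifs <;> simp

theorem bb_le (δ : ℝ) (hδ : 0 < δ) (hδ1 : δ ≤ 1 / 8) : ∀ᶠ n : ℕ in atTop,
    4 ≤ n ∧ ∀ j, 1 ≤ j → j ≤ mD δ n → 2 * j + 2 ≤ n ∧
      bb j j n (FD δ n) + 1 / (n : ℝ) ≤ 6 * (n : ℝ) ^ (-δ) := by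
  have hs : Tendsto (fun n : ℕ => Real.sqrt n) atTop atTop :=
    Real.tendsto_sqrt_atTop.comp tendsto_natCast_atTop_atTop
  have hp : Tendsto (fun n : ℕ => (n : ℝ) ^ (1 - δ)) atTop atTop :=
    (tendsto_rpow_atTop (by linarith : 0 < 1 - δ)).comp tendsto_natCast_atTop_atTop
  filter_upwards [eventually_ge_atTop 4, hs.eventually_ge_atTop 16, hp.eventually_ge_atTop 16]
    with n hn hs16 hp16
  refine ⟨hn, fun j h1 hj => ?_⟩
  have hn' : (4 : ℝ) ≤ n := by exact_mod_cast hn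
  have hn0 : (0 : ℝ) < n := by linarith
  obtain ⟨s, hsdef⟩ : ∃ s, s = Real.sqrt n := ⟨_, rfl⟩
  obtain ⟨P, hP⟩ : ∃ P, P = (n : ℝ) ^ (-δ) := ⟨_, rfl⟩
  rw [← hsdef] at hs16
  have hs2 : s * s = n := by rw [hsdef]; exact Real.mul_self_sqrt (by positivity)
  have hP0 : 0 < P := by rw [hP]; positivity
  have hP1 : P ≤ 1 := by
    rw [hP]
    exact Real.rpow_le_one_of_one_le_of_nonpos (by linarith) (by linarith)
  have e1 : (n : ℝ) ^ (1 - δ) = n * P := by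
    rw [hP, show (1 : ℝ) - δ = 1 + -δ by ring, Real.rpow_add hn0, Real.rpow_one]
  have e2 : (n : ℝ) ^ (1 / 2 - δ) = s * P := by
    rw [hP, hsdef, show (1 : ℝ) / 2 - δ = 1 / 2 + -δ by ring, Real.rpow_add hn0,
      ← Real.sqrt_eq_rpow]
  rw [e1] at hp16
  rw [← hP]
  have hj' : (j : ℝ) ≤ s * P := by
    rw [← e2]
    calc (j : ℝ) ≤ (mD δ n : ℕ) := by exact_mod_cast hj
      _ ≤ (n : ℝ) ^ (1 / 2 - δ) := Nat.floor_le (by positivity)
  have hF : (FD δ n : ℝ) ≤ n * P + 1 := by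
    rw [← e1]
    exact (Nat.ceil_lt_add_one (by positivity)).le
  have hs0 : 0 < s := by linarith
  have hjs : (j : ℝ) ≤ s := by nlinarith
  have hj3 : (j : ℝ) ≤ n / 4 := by nlinarith
  have hjn : 2 * j + 2 ≤ n := by
    have : (2 : ℝ) * j + 2 ≤ n := by nlinarith
    exact_mod_cast this
  refine ⟨hjn, ?_⟩
  have hD : ((n - j : ℕ) : ℝ) = n - j := by
    rw [Nat.cast_sub (by omega)]
  have hD1 : 3 / 4 * (s * s) ≤ ((n - j : ℕ) : ℝ) := by
    rw [hD, hs2]; linarith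
  have hDpos : (0 : ℝ) < ((n - j : ℕ) : ℝ) := by nlinarith
  have hsD : 3 / 4 * s ≤ Real.sqrt ((n - j : ℕ) : ℝ) := by
    apply Real.le_sqrt_of_sq_le
    nlinarith
  have hsDpos : 0 < Real.sqrt ((n - j : ℕ) : ℝ) := Real.sqrt_pos.2 hDpos
  have t1 : 2 * (j : ℝ) / ((n - j : ℕ) : ℝ) ≤ 1 / 4 * P := by
    rw [div_le_iff₀ hDpos]
    calc 2 * (j : ℝ) ≤ 2 * (s * P) := by linarith
      _ ≤ 1 / 4 * P * (3 / 4 * (s * s)) := by nlinarith [mul_pos hs0 hP0]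
      _ ≤ 1 / 4 * P * ((n - j : ℕ) : ℝ) := mul_le_mul_of_nonneg_left hD1 (by positivity)
  have t2 : (FD δ n : ℝ) / ((n - j : ℕ) : ℝ) ≤ 3 / 2 * P := by
    rw [div_le_iff₀ hDpos]
    calc (FD δ n : ℝ) ≤ n * P + 1 := hF
      _ ≤ 3 / 2 * P * (3 / 4 * (s * s)) := by rw [hs2]; linarith
      _ ≤ 3 / 2 * P * ((n - j : ℕ) : ℝ) := mul_le_mul_of_nonneg_left hD1 (by positivity)
  have t3 : (j : ℝ) / Real.sqrt ((n - j : ℕ) : ℝ) ≤ 4 / 3 * P := by
    rw [div_le_iff₀ hsDpos]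
    calc (j : ℝ) ≤ s * P := hj'
      _ = 4 / 3 * P * (3 / 4 * s) := by ring
      _ ≤ 4 / 3 * P * Real.sqrt ((n - j : ℕ) : ℝ) :=
        mul_le_mul_of_nonneg_left hsD (by positivity)
  have t4 : 1 / (n : ℝ) ≤ 1 / 16 * P := by
    rw [div_le_iff₀ hn0]
    linarith
  unfold bb
  linarith

end RTD

theorem RTD (δ : ℝ) (hδ : 0 < δ) (hδ1 : δ ≤ 1 / 8) : ∀ᶠ n : ℕ in atTop,
    ∀ (q m : ℕ) (x b : Fin q → Alt n), 1 ≤ q →
    GoodD δ (gx x m) (cb b) → ∀ j, 1 ≤ j → j ≤ mD δ n →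
    ∀ (W : Submodule ℂ (V j n)) (hW : Irr (repA j n) W), W ≤ Lvl j n →
      RS (repA j n) W hW.2.1 x b m (2 * (32 * j)) ≤
        (6 * (n : ℝ) ^ (-δ)) ^ j * Module.finrank ℂ W := by
  filter_upwards [RTD.bb_le δ hδ hδ1] with n hn
  obtain ⟨hn4, hn⟩ := hn
  intro q m x b hq hG j h1 hj W hW hWL
  obtain ⟨hjn, hb⟩ := hn j h1 hj
  have hJ : 2 * (32 * j) = 64 * j := by ring
  rw [hJ]
  unfold RS
  have hbb := bb_nonneg j j n (FD δ n)
  have key := Sop_trace hq (res (repA j n) W hW.2.1) x b m (64 * j)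
    (fun h : Alt n => FD δ n ≤ nfix (h : Equiv.Perm (Fin n))) (bb j j n (FD δ n) ^ j)
    (by positivity) (by
      intro h hh
      exact CHARB j j n (FD δ n) hjn le_rfl W hW.2.1 hWL h (not_le.1 hh).le)
  refine key.trans ?_
  refine mul_le_mul_of_nonneg_right ?_ (by positivity)
  have hn0 : (0 : ℝ) < n := by
    have : 0 < n := by omega
    exact_mod_cast this
  have hbad : (Nat.card {w : Fin (64 * j) → (Fin (2 * m) → Fin q × Bool) × (Fin q × Bool) //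
      FD δ n ≤ nfix ((bwd (wrd x) b w : Alt n) : Equiv.Perm (Fin n))} : ℝ) /
        (Fintype.card ((Fin (2 * m) → Fin q × Bool) × (Fin q × Bool)) : ℝ) ^ (64 * j) ≤
      (1 / (n : ℝ)) ^ j := by
    have h2 := hG j h1 hj
    simp only [RTD.coe_bwd]
    have hpos : (0 : ℝ) < (Fintype.card ((Fin (2 * m) → Fin q × Bool) × (Fin q × Bool)) : ℝ) := by
      have : Nonempty (Fin q) := ⟨⟨0, hq⟩⟩
      exact_mod_cast Fintype.card_pos
    rw [div_le_iff₀ (by positivity)]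
    exact h2
  calc bb j j n (FD δ n) ^ j + _ ≤ bb j j n (FD δ n) ^ j + (1 / (n : ℝ)) ^ j :=
        add_le_add le_rfl hbad
    _ ≤ (bb j j n (FD δ n) + 1 / (n : ℝ)) ^ j :=
        pow_add_pow_le hbb (by positivity) (by omega)
    _ ≤ (6 * (n : ℝ) ^ (-δ)) ^ j := pow_le_pow_left₀ (by positivity) hb j

end DM852
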